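import Pool.Agent.R723.RDConv

/-!
# The indicator condition implies rapid decay when balls grow at most like `exp (polynomial)`
-/

namespace Pool.Agent.Results.MP_37447d_al.IndicatorImpliesRD

open Finset

universe u

/-- `L` is a length function on the group `G`. -/
structure IsLength {G : Type u} [Group G] (L : G → ℝ) : Prop where
  nonneg : ∀ g, 0 ≤ L g
  one : L 1 = 0
  inv : ∀ g, L g⁻¹ = L g
  mul_le : ∀ g h, L (g * h) ≤ L g + L h

/-- Convolution `(φ * ψ)(g) = ∑_h φ(h) ψ(h⁻¹ g)` (used only for finitely supported `φ`). -/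
noncomputable def conv {G : Type u} [Group G] (φ ψ : G → ℂ) (g : G) : ℂ :=
  ∑' h, φ h * ψ (h⁻¹ * g)

/-- Square of the `ℓ²` norm. -/
noncomputable def sqNorm {G : Type u} (f : G → ℂ) : ℝ := ∑' g, ‖f g‖ ^ 2

/-- Property RD of `(G, L)`: there is a polynomial `P` with
`‖φ * ψ‖² ≤ P(r) ‖φ‖² ‖ψ‖²` for all `r > 0`, all finitely supported `φ` with support in the
ball `B(r)` and all `ψ ∈ ℓ²(G)`. -/
def RD {G : Type u} [Group G] (L : G → ℝ) : Prop :=
  ∃ P : Polynomial ℝ, ∀ r : ℝ, 0 < r → ∀ φ : G → ℂ, φ.support.Finite →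
    (∀ g, φ g ≠ 0 → L g ≤ r) → ∀ ψ : G → ℂ, Summable (fun g => ‖ψ g‖ ^ 2) →
      Summable (fun g => ‖conv φ ψ g‖ ^ 2) ∧
        sqNorm (conv φ ψ) ≤ P.eval r * sqNorm φ * sqNorm ψ

open Classical in
/-- The indicator inequality `∑_{g ∈ SX} n_g² ≤ P(r) |S| |X|`, for all `r > 0`, all finite
`S ⊆ B(r)` and all finite `X ⊆ G`, where `n_g = #{(s, x) ∈ S × X : s x = g}`. -/
def IndicatorWith {G : Type u} [Group G] (L : G → ℝ) (P : Polynomial ℝ) : Prop :=
  ∀ r : ℝ, 0 < r → ∀ S X : Finset G, (∀ s ∈ S, L s ≤ r) →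
    ∑ g ∈ (S ×ˢ X).image (fun p => p.1 * p.2),
      (#((S ×ˢ X).filter (fun p => p.1 * p.2 = g)) : ℝ) ^ 2 ≤ P.eval r * #S * #X

/-- The indicator condition. -/
def Indicator {G : Type u} [Group G] (L : G → ℝ) : Prop :=
  ∃ P : Polynomial ℝ, IndicatorWith L P

/-- Word length with respect to a finite set `T` (and its inverses). -/
noncomputable def wordLen {G : Type u} [Group G] (T : Finset G) (g : G) : ℝ :=
  (sInf {n : ℕ | ∃ l : List G, l.length = n ∧ (∀ x ∈ l, x ∈ T ∨ x⁻¹ ∈ T) ∧ l.prod = g} : ℕ)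

section aux

variable {G : Type u} [Group G]

open Classical in
theorem count_eq (S X : Finset G) (g : G) :
    (#((S ×ˢ X).filter (fun p => p.1 * p.2 = g)) : ℝ)
      = ∑ s ∈ S, if s⁻¹ * g ∈ X then (1 : ℝ) else 0 := by
  rw [← Finset.sum_filter, Finset.sum_const, nsmul_eq_mul, mul_one]
  congr 1
  refine Finset.card_bij' (fun p _ => p.1) (fun s _ => (s, s⁻¹ * g)) ?_ ?_ ?_ ?_
  · rintro ⟨s, x⟩ hp
    rw [Finset.mem_filter, Finset.mem_product] at hp
    obtain ⟨⟨h1, h2⟩, h3⟩ := hp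
    dsimp only at h1 h2 h3 ⊢
    rw [Finset.mem_filter]
    refine ⟨h1, ?_⟩
    rw [← h3]; simpa using h2
  · intro s hs
    rw [Finset.mem_filter] at hs
    rw [Finset.mem_filter, Finset.mem_product]
    exact ⟨hs, by simp⟩
  · rintro ⟨s, x⟩ hp
    rw [Finset.mem_filter, Finset.mem_product] at hp
    obtain ⟨⟨h1, h2⟩, h3⟩ := hp
    dsimp only at h1 h2 h3 ⊢
    rw [← h3]; simp
  · intro s hs
    rfl

open Classical in
theorem restr_of_indicator {L : G → ℝ} {P : Polynomial ℝ} (hP : IndicatorWith L P) {r : ℝ}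
    (hr : 0 < r) (Φ : Finset G) (hΦ : ∀ s ∈ Φ, L s ≤ r) :
    Pool.Agent.R723.RDConv.Restr Φ (P.eval r) := by
  intro S hS Y W
  have h1 := hP r hr S Y (fun s hs => hΦ s (hS hs))
  simp_rw [count_eq] at h1
  refine le_trans ?_ h1
  have h2 : ∀ g ∈ W, g ∉ (S ×ˢ Y).image (fun p => p.1 * p.2) →
      (∑ s ∈ S, if s⁻¹ * g ∈ Y then (1 : ℝ) else 0) ^ 2 = 0 := by
    intro g _ hg
    have : ∑ s ∈ S, (if s⁻¹ * g ∈ Y then (1 : ℝ) else 0) = 0 := by
      refine Finset.sum_eq_zero fun s hs => ?_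
      rw [if_neg]
      intro hmem
      apply hg
      rw [Finset.mem_image]
      exact ⟨(s, s⁻¹ * g), Finset.mem_product.2 ⟨hs, hmem⟩, by simp⟩
    rw [this]; norm_num
  have h3 : ∑ g ∈ W, (∑ s ∈ S, if s⁻¹ * g ∈ Y then (1 : ℝ) else 0) ^ 2
      = ∑ g ∈ W with g ∈ (S ×ˢ Y).image (fun p => p.1 * p.2),
        (∑ s ∈ S, if s⁻¹ * g ∈ Y then (1 : ℝ) else 0) ^ 2 := by
    rw [Finset.sum_filter]
    refine Finset.sum_congr rfl fun g hg => ?_
    split_ifs with h
    · rfl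
    · exact h2 g hg h
  rw [h3]
  refine Finset.sum_le_sum_of_subset_of_nonneg ?_ (fun _ _ _ => sq_nonneg _)
  intro g hg
  exact (Finset.mem_filter.1 hg).2

theorem one_le_of_indicator {L : G → ℝ} (hL : IsLength L) {P : Polynomial ℝ}
    (hP : IndicatorWith L P) {r : ℝ} (hr : 0 < r) : 1 ≤ P.eval r := by
  classical
  have h1 := restr_of_indicator hP hr {1} (by
    intro s hs
    rw [Finset.mem_singleton] at hs
    rw [hs, hL.one]; exact hr.le) {1} (le_refl _) {1} {1}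
  rw [Finset.sum_singleton, Finset.sum_singleton, if_pos (by simp), Finset.card_singleton,
    Nat.cast_one, one_pow, mul_one, mul_one] at h1
  exact h1

theorem conv_eq (φ ψ : G → ℂ) (hφ : φ.support.Finite) (g : G) :
    conv φ ψ g = ∑ h ∈ hφ.toFinset, φ h * ψ (h⁻¹ * g) := by
  rw [conv, tsum_eq_sum]
  intro h hh
  rw [Set.Finite.mem_toFinset, Function.mem_support, not_not] at hh
  rw [hh, zero_mul]

omit [Group G] in
theorem sqNorm_eq (φ : G → ℂ) (hφ : φ.support.Finite) :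
    sqNorm φ = ∑ h ∈ hφ.toFinset, ‖φ h‖ ^ 2 := by
  rw [sqNorm, tsum_eq_sum]
  intro h hh
  rw [Set.Finite.mem_toFinset, Function.mem_support, not_not] at hh
  rw [hh]; simp

theorem general {L : G → ℝ} (hL : IsLength L) {P : Polynomial ℝ}
    (hP : IndicatorWith L P) {r : ℝ} (hr : 0 < r) (φ : G → ℂ) (hφ : φ.support.Finite)
    (hφr : ∀ g, φ g ≠ 0 → L g ≤ r) (ψ : G → ℂ) (hψ : Summable (fun g => ‖ψ g‖ ^ 2)) :
    Summable (fun g => ‖conv φ ψ g‖ ^ 2) ∧
      sqNorm (conv φ ψ) ≤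
        200 * P.eval r * (1 + Real.log (φ.support.ncard)) ^ 2 * sqNorm φ * sqNorm ψ := by
  classical
  set Φ := hφ.toFinset with hΦ
  set N : ℕ := #Φ with hN
  have hncard : φ.support.ncard = N := by
    rw [hN, hΦ, Set.ncard_eq_toFinset_card _ hφ]
  rw [hncard]
  set m : ℕ := ⌈Real.log N / Real.log 2⌉₊ with hm
  have hlog2 : (0.69 : ℝ) < Real.log 2 := by
    have := Real.log_two_gt_d9
    linarith
  have hlogN : 0 ≤ Real.log N := Real.log_natCast_nonneg N
  have hNm : (#Φ : ℝ) ≤ 2 ^ m := by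
    rw [← hN]
    rcases Nat.eq_zero_or_pos N with h0 | h0
    · rw [h0]; simp
    · have h1 : Real.log N ≤ m * Real.log 2 := by
        have h2 : Real.log N / Real.log 2 ≤ m := Nat.le_ceil _
        rwa [div_le_iff₀ (by linarith)] at h2
      have h3 : (0 : ℝ) < N := by exact_mod_cast h0
      rw [← Real.log_pow] at h1
      exact (Real.log_le_log_iff h3 (by positivity)).1 h1
  have hm1 : ((m : ℝ) + 1) ^ 2 ≤ 4 * (1 + Real.log N) ^ 2 := by
    have h1 : (m : ℝ) < Real.log N / Real.log 2 + 1 := Nat.ceil_lt_add_one (by positivity)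
    have h2 : Real.log N / Real.log 2 ≤ 2 * Real.log N := by
      rw [div_le_iff₀ (by linarith)]
      nlinarith
    have h3 : (m : ℝ) + 1 ≤ 2 * (1 + Real.log N) := by linarith
    have h4 := pow_le_pow_left₀ (by positivity : (0 : ℝ) ≤ (m : ℝ) + 1) h3 2
    calc _ ≤ _ := h4
      _ = _ := by ring
  have hA := one_le_of_indicator hL hP hr
  have hR := restr_of_indicator hP hr Φ (by
    intro s hs
    rw [hΦ, Set.Finite.mem_toFinset, Function.mem_support] at hs
    exact hφr s hs)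
  set K : ℝ := 200 * P.eval r * (1 + Real.log N) ^ 2 * sqNorm φ * sqNorm ψ with hK
  have hwin : ∀ W : Finset G, ∑ g ∈ W, ‖conv φ ψ g‖ ^ 2 ≤ K := by
    intro W
    set X : Finset G := (Φ ×ˢ W).image (fun p => p.1⁻¹ * p.2) with hX
    set ψX : G → ℝ := fun x => if x ∈ X then ‖ψ x‖ else 0 with hψX
    have h1 : ∀ g ∈ W, ‖conv φ ψ g‖ ≤ ∑ h ∈ Φ, ‖φ h‖ * ψX (h⁻¹ * g) := by
      intro g hg
      rw [conv_eq φ ψ hφ g]
      refine (norm_sum_le _ _).trans (le_of_eq ?_)
      refine Finset.sum_congr rfl fun h hh => ?_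
      rw [norm_mul, hψX]
      dsimp only
      rw [if_pos]
      rw [hX, Finset.mem_image]
      exact ⟨(h, g), Finset.mem_product.2 ⟨hh, hg⟩, rfl⟩
    have h2 : ∑ g ∈ W, ‖conv φ ψ g‖ ^ 2 ≤ ∑ g ∈ W, (∑ h ∈ Φ, ‖φ h‖ * ψX (h⁻¹ * g)) ^ 2 :=
      Finset.sum_le_sum fun g hg => pow_le_pow_left₀ (norm_nonneg _) (h1 g hg) 2
    have h3 := Pool.Agent.R723.RDConv.step2 hA hR hNm X W (fun h => ‖φ h‖) ψX
      (fun h => norm_nonneg _)
      (fun x => by
        rw [hψX]; dsimp only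
        split_ifs
        · exact norm_nonneg _
        · exact le_rfl)
      (fun x hx => by
        by_contra hne
        apply hx
        rw [hψX]; dsimp only
        rw [if_neg hne])
    have h4 : ∑ x ∈ X, (ψX x) ^ 2 ≤ sqNorm ψ := by
      calc ∑ x ∈ X, (ψX x) ^ 2 = ∑ x ∈ X, ‖ψ x‖ ^ 2 := by
            refine Finset.sum_congr rfl fun x hx => ?_
            rw [hψX]; dsimp only
            rw [if_pos hx]
        _ ≤ _ := hψ.sum_le_tsum X (fun _ _ => sq_nonneg _)
    have h5 : ∑ h ∈ Φ, ‖φ h‖ ^ 2 = sqNorm φ := (sqNorm_eq φ hφ).symm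
    rw [h5] at h3
    have hs0 : 0 ≤ sqNorm φ := tsum_nonneg fun _ => sq_nonneg _
    have hs1 : 0 ≤ sqNorm ψ := tsum_nonneg fun _ => sq_nonneg _
    calc ∑ g ∈ W, ‖conv φ ψ g‖ ^ 2
        ≤ 50 * P.eval r * (m + 1) ^ 2 * sqNorm φ * ∑ x ∈ X, (ψX x) ^ 2 := h2.trans h3
      _ ≤ 50 * P.eval r * (m + 1) ^ 2 * sqNorm φ * sqNorm ψ :=
          mul_le_mul_of_nonneg_left h4 (by positivity)
      _ = 50 * P.eval r * sqNorm φ * sqNorm ψ * (m + 1) ^ 2 := by ring
      _ ≤ 50 * P.eval r * sqNorm φ * sqNorm ψ * (4 * (1 + Real.log N) ^ 2) :=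
          mul_le_mul_of_nonneg_left hm1 (by positivity)
      _ = K := by rw [hK]; ring
  have hsum : Summable (fun g => ‖conv φ ψ g‖ ^ 2) :=
    summable_of_sum_le (fun _ => sq_nonneg _) hwin
  exact ⟨hsum, hsum.tsum_le_of_sum_le hwin⟩

theorem rd_of_indicator {L : G → ℝ} (hL : IsLength L) (hI : Indicator L)
    (hQ : ∃ Q : Polynomial ℝ, ∀ r : ℝ, 0 < r → {g | L g ≤ r}.Finite ∧
      ({g | L g ≤ r}.ncard : ℝ) ≤ Real.exp (Q.eval r)) : RD L := by
  obtain ⟨P, hP⟩ := hI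
  obtain ⟨Q, hQ⟩ := hQ
  refine ⟨Polynomial.C 200 * P * (1 + Q) ^ 2, ?_⟩
  intro r hr φ hφ hφr ψ hψ
  obtain ⟨h1, h2⟩ := general hL hP hr φ hφ hφr ψ hψ
  refine ⟨h1, h2.trans ?_⟩
  obtain ⟨hfin, hcard⟩ := hQ r hr
  have hs0 : 0 ≤ sqNorm φ := tsum_nonneg fun _ => sq_nonneg _
  have hs1 : 0 ≤ sqNorm ψ := tsum_nonneg fun _ => sq_nonneg _
  have hA := one_le_of_indicator hL hP hr
  have hQ0 : 0 ≤ Q.eval r := by
    have h3 : 0 < {g | L g ≤ r}.ncard :=
      (Set.ncard_pos hfin).2 ⟨1, by show L 1 ≤ r; rw [hL.one]; exact hr.le⟩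
    have h4 : (1 : ℝ) ≤ {g | L g ≤ r}.ncard := by exact_mod_cast h3
    exact Real.one_le_exp_iff.1 (h4.trans hcard)
  have h5 : Real.log (φ.support.ncard) ≤ Q.eval r := by
    rcases Nat.eq_zero_or_pos φ.support.ncard with h0 | h0
    · rw [h0]; simpa using hQ0
    · have h6 : φ.support.ncard ≤ {g | L g ≤ r}.ncard :=
        Set.ncard_le_ncard (fun g hg => hφr g hg) hfin
      have h7 : (φ.support.ncard : ℝ) ≤ Real.exp (Q.eval r) :=
        le_trans (by exact_mod_cast h6) hcard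
      have h8 : (0 : ℝ) < φ.support.ncard := by exact_mod_cast h0
      exact (Real.log_le_iff_le_exp h8).2 h7
  have h9 : (0 : ℝ) ≤ Real.log (φ.support.ncard) := Real.log_natCast_nonneg _
  have h10 : (1 + Real.log (φ.support.ncard)) ^ 2 ≤ (1 + Q.eval r) ^ 2 :=
    pow_le_pow_left₀ (by linarith) (by linarith) 2
  simp only [Polynomial.eval_mul, Polynomial.eval_C, Polynomial.eval_pow, Polynomial.eval_add,
    Polynomial.eval_one]
  have h11 : 200 * P.eval r * (1 + Real.log (φ.support.ncard)) ^ 2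
      ≤ 200 * P.eval r * (1 + Q.eval r) ^ 2 := mul_le_mul_of_nonneg_left h10 (by linarith)
  exact mul_le_mul_of_nonneg_right (mul_le_mul_of_nonneg_right h11 hs0) hs1

open Classical in
theorem indicator_of_rd {L : G → ℝ} (h : RD L) : Indicator L := by
  obtain ⟨P, hP⟩ := h
  refine ⟨P, ?_⟩
  intro r hr S X hS
  set φ : G → ℂ := fun g => if g ∈ S then 1 else 0 with hφ
  set ψ : G → ℂ := fun g => if g ∈ X then 1 else 0 with hψ
  have hsup : ∀ Y : Finset G, (fun g : G => if g ∈ Y then (1 : ℂ) else 0).support = ↑Y := by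
    intro Y
    ext g
    simp [Function.mem_support]
  have hφs : φ.support.Finite := by rw [hφ, hsup]; exact Finset.finite_toSet S
  have hψs : ψ.support.Finite := by rw [hψ, hsup]; exact Finset.finite_toSet X
  have hφF : hφs.toFinset = S := by
    ext g
    rw [Set.Finite.mem_toFinset, hφ, hsup, Finset.mem_coe]
  have hψF : hψs.toFinset = X := by
    ext g
    rw [Set.Finite.mem_toFinset, hψ, hsup, Finset.mem_coe]
  have hψsum : Summable (fun g => ‖ψ g‖ ^ 2) := by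
    apply summable_of_hasFiniteSupport
    refine hψs.subset ?_
    intro g hg
    rw [Function.mem_support] at hg ⊢
    intro h0
    apply hg
    rw [h0]; simp
  obtain ⟨h1, h2⟩ := hP r hr φ hφs (by
    intro g hg
    apply hS
    by_contra hne
    apply hg
    rw [hφ]; dsimp only
    rw [if_neg hne]) ψ hψsum
  have hnφ : sqNorm φ = #S := by
    rw [sqNorm_eq φ hφs, hφF]
    have h3 : ∀ g ∈ S, ‖φ g‖ ^ 2 = (1 : ℝ) := by
      intro g hg
      rw [hφ]; dsimp only
      rw [if_pos hg]; simp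
    rw [Finset.sum_congr rfl h3]
    simp
  have hnψ : sqNorm ψ = #X := by
    rw [sqNorm_eq ψ hψs, hψF]
    have h3 : ∀ g ∈ X, ‖ψ g‖ ^ 2 = (1 : ℝ) := by
      intro g hg
      rw [hψ]; dsimp only
      rw [if_pos hg]; simp
    rw [Finset.sum_congr rfl h3]
    simp
  rw [hnφ, hnψ] at h2
  refine le_trans ?_ h2
  refine le_trans (le_of_eq ?_) (h1.sum_le_tsum ((S ×ˢ X).image (fun p => p.1 * p.2))
    (fun _ _ => sq_nonneg _))
  refine Finset.sum_congr rfl fun g _ => ?_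
  rw [count_eq, conv_eq φ ψ hφs, hφF]
  have h3 : ∑ h ∈ S, φ h * ψ (h⁻¹ * g)
      = ((∑ s ∈ S, if s⁻¹ * g ∈ X then (1 : ℝ) else 0 : ℝ) : ℂ) := by
    rw [Complex.ofReal_sum]
    refine Finset.sum_congr rfl fun h hh => ?_
    rw [hφ, hψ]; dsimp only
    rw [if_pos hh]
    split_ifs <;> simp
  rw [h3, Complex.norm_real, Real.norm_eq_abs, sq_abs]

theorem word_exists {T : Finset G} (hT : Subgroup.closure (T : Set G) = ⊤) (g : G) :
    ∃ l : List G, l.length = (sInf {n : ℕ | ∃ l : List G, l.length = n ∧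
      (∀ x ∈ l, x ∈ T ∨ x⁻¹ ∈ T) ∧ l.prod = g}) ∧ (∀ x ∈ l, x ∈ T ∨ x⁻¹ ∈ T) ∧ l.prod = g := by
  have h1 : g ∈ (Subgroup.closure (T : Set G)).toSubmonoid := by
    rw [hT]; exact Subgroup.mem_top g
  rw [Subgroup.closure_toSubmonoid] at h1
  obtain ⟨l, hl1, hl2⟩ := Submonoid.exists_list_of_mem_closure h1
  have hne : {n : ℕ | ∃ l : List G, l.length = n ∧
      (∀ x ∈ l, x ∈ T ∨ x⁻¹ ∈ T) ∧ l.prod = g}.Nonempty :=
    ⟨l.length, l, rfl, by simpa using hl1, hl2⟩
  exact Nat.sInf_mem hne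

theorem wordLen_le {T : Finset G} (l : List G) (hl : ∀ x ∈ l, x ∈ T ∨ x⁻¹ ∈ T) :
    wordLen T l.prod ≤ l.length := by
  have h : sInf {n : ℕ | ∃ l' : List G, l'.length = n ∧
      (∀ x ∈ l', x ∈ T ∨ x⁻¹ ∈ T) ∧ l'.prod = l.prod} ≤ l.length :=
    Nat.sInf_le ⟨l, rfl, hl, rfl⟩
  unfold wordLen
  exact_mod_cast h

theorem wordLen_inv_le {T : Finset G} (hT : Subgroup.closure (T : Set G) = ⊤) (g : G) :
    wordLen T g⁻¹ ≤ wordLen T g := by
  obtain ⟨l, h1, h2, h3⟩ := word_exists hT g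
  have h4 : g⁻¹ = (List.map (fun x => x⁻¹) l).reverse.prod := by
    rw [← List.prod_inv_reverse, h3]
  have h5 := wordLen_le (T := T) (List.map (fun x => x⁻¹) l).reverse (by
    intro x hx
    rw [List.mem_reverse, List.mem_map] at hx
    obtain ⟨y, hy, rfl⟩ := hx
    rcases h2 y hy with h | h
    · right; simpa using h
    · left; exact h)
  rw [← h4] at h5
  refine h5.trans (le_of_eq ?_)
  rw [List.length_reverse, List.length_map, h1]
  rfl

theorem wordLen_isLength {T : Finset G} (hT : Subgroup.closure (T : Set G) = ⊤) :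
    IsLength (wordLen T) where
  nonneg g := Nat.cast_nonneg _
  one := by
    have h := wordLen_le (T := T) ([] : List G) (by simp)
    simp only [List.prod_nil, List.length_nil, Nat.cast_zero] at h
    exact le_antisymm h (Nat.cast_nonneg _)
  inv g := by
    refine le_antisymm (wordLen_inv_le hT g) ?_
    have := wordLen_inv_le hT g⁻¹
    rwa [inv_inv] at this
  mul_le g h := by
    obtain ⟨l, h1, h2, h3⟩ := word_exists hT g
    obtain ⟨l', h1', h2', h3'⟩ := word_exists hT h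
    have h5 := wordLen_le (T := T) (l ++ l') (by
      intro x hx
      rw [List.mem_append] at hx
      rcases hx with hx | hx
      · exact h2 x hx
      · exact h2' x hx)
    rw [List.prod_append, h3, h3', List.length_append, h1, h1'] at h5
    push_cast at h5
    exact h5

open Classical Pointwise in
theorem wordLen_growth {T : Finset G} (hT : Subgroup.closure (T : Set G) = ⊤) :
    ∃ Q : Polynomial ℝ, ∀ r : ℝ, 0 < r → {g | wordLen T g ≤ r}.Finite ∧
      ({g | wordLen T g ≤ r}.ncard : ℝ) ≤ Real.exp (Q.eval r) := by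
  refine ⟨Polynomial.C (Real.log (2 * #T + 1)) * Polynomial.X, ?_⟩
  intro r hr
  set U : Finset G := insert 1 (T ∪ T⁻¹) with hU
  have h1U : (1 : G) ∈ U := by rw [hU]; exact Finset.mem_insert_self _ _
  have hprod : ∀ l : List G, (∀ x ∈ l, x ∈ T ∨ x⁻¹ ∈ T) → l.prod ∈ U ^ l.length := by
    intro l
    induction l with
    | nil => intro _; simp
    | cons a l ih =>
      intro h
      rw [List.prod_cons, List.length_cons, pow_succ']
      refine Finset.mul_mem_mul ?_ (ih fun x hx => h x (List.mem_cons_of_mem _ hx))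
      rw [hU, Finset.mem_insert, Finset.mem_union, Finset.mem_inv']
      exact Or.inr (h a List.mem_cons_self)
  have hsub : {g | wordLen T g ≤ r} ⊆ ((U ^ ⌊r⌋₊ : Finset G) : Set G) := by
    intro g hg
    have hg' : wordLen T g ≤ r := hg
    obtain ⟨l, h1, h2, h3⟩ := word_exists hT g
    have h4 : l.length ≤ ⌊r⌋₊ := by
      rw [Nat.le_floor_iff hr.le, h1]
      exact hg'
    rw [Finset.mem_coe, ← h3]
    exact Finset.pow_subset_pow_right h1U h4 (hprod l h2)
  have hfin : {g | wordLen T g ≤ r}.Finite := (Finset.finite_toSet _).subset hsub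
  refine ⟨hfin, ?_⟩
  have hc1 : {g | wordLen T g ≤ r}.ncard ≤ #(U ^ ⌊r⌋₊) := by
    rw [← Set.ncard_coe_finset]
    exact Set.ncard_le_ncard hsub (Finset.finite_toSet _)
  have hc2 : #(U ^ ⌊r⌋₊) ≤ (#U) ^ ⌊r⌋₊ := Finset.card_pow_le
  have hc3 : #U ≤ 2 * #T + 1 := by
    rw [hU]
    refine (Finset.card_insert_le _ _).trans ?_
    have := Finset.card_union_le T T⁻¹
    rw [Finset.card_inv] at this
    omega
  have hc4 : ({g | wordLen T g ≤ r}.ncard : ℝ) ≤ (2 * #T + 1 : ℝ) ^ ⌊r⌋₊ := by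
    have := (hc1.trans hc2).trans (Nat.pow_le_pow_left hc3 _)
    exact_mod_cast this
  refine hc4.trans ?_
  rw [Polynomial.eval_mul, Polynomial.eval_C, Polynomial.eval_X]
  have hpos : (0 : ℝ) < 2 * #T + 1 := by positivity
  have h5 : (2 * #T + 1 : ℝ) ^ ⌊r⌋₊ = Real.exp (Real.log (2 * #T + 1) * ⌊r⌋₊) := by
    rw [← Real.rpow_natCast, Real.rpow_def_of_pos hpos]
  rw [h5, Real.exp_le_exp]
  refine mul_le_mul_of_nonneg_left (Nat.floor_le hr.le) ?_
  apply Real.log_nonneg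
  have : (0 : ℝ) ≤ #T := by positivity
  linarith

end aux

/-- (1) For every group `G` with a length function `L` satisfying the indicator inequality with
polynomial `P`, `‖φ * ψ‖² ≤ 200 P(r) (1 + log |supp φ|)² ‖φ‖² ‖ψ‖²` for all `φ` finitely supported
in `B(r)` and all `ψ ∈ ℓ²(G)`. (2) If the balls `B(r)` are finite of size at most `exp (Q(r))` for
a polynomial `Q`, the indicator condition is equivalent to property RD. (3) In particular this
holds for every finitely generated group with any of its word lengths. -/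
theorem result :
    (∀ (G : Type u) [Group G] (L : G → ℝ), IsLength L → ∀ P : Polynomial ℝ, IndicatorWith L P →
      ∀ r : ℝ, 0 < r → ∀ φ : G → ℂ, φ.support.Finite → (∀ g, φ g ≠ 0 → L g ≤ r) →
      ∀ ψ : G → ℂ, Summable (fun g => ‖ψ g‖ ^ 2) →
        Summable (fun g => ‖conv φ ψ g‖ ^ 2) ∧
          sqNorm (conv φ ψ) ≤
            200 * P.eval r * (1 + Real.log (φ.support.ncard)) ^ 2 * sqNorm φ * sqNorm ψ) ∧
    (∀ (G : Type u) [Group G] (L : G → ℝ), IsLength L →
      (∃ Q : Polynomial ℝ, ∀ r : ℝ, 0 < r → {g | L g ≤ r}.Finite ∧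
        ({g | L g ≤ r}.ncard : ℝ) ≤ Real.exp (Q.eval r)) → (Indicator L ↔ RD L)) ∧
    (∀ (G : Type u) [Group G] (T : Finset G), Subgroup.closure (T : Set G) = ⊤ →
      IsLength (wordLen T) ∧ (Indicator (wordLen T) ↔ RD (wordLen T))) := by
  refine ⟨?_, ?_, ?_⟩
  · intro G _ L hL P hP r hr φ hφ hφr ψ hψ
    exact general hL hP hr φ hφ hφr ψ hψ
  · intro G _ L hL hQ
    exact ⟨fun h => rd_of_indicator hL h hQ, indicator_of_rd⟩
  · intro G _ T hT
    have hL := wordLen_isLength hT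
    exact ⟨hL, fun h => rd_of_indicator hL h (wordLen_growth hT), indicator_of_rd⟩

end Pool.Agent.Results.MP_37447d_al.IndicatorImpliesRD
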