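import Pool.Agent.R723.RDConv

/-!
# The indicator inequality gives the RD inequality for all length functions up to a factor
`(1 + log |supp φ|) ^ 2`
-/

namespace Pool.Agent.Results.MP_37447d_al.LogLoss

open Finset

universe u

/-- `L` is a length function on the group `G`. -/
structure IsLength {G : Type u} [Group G] (L : G → ℝ) : Prop where
  nonneg : ∀ g, 0 ≤ L g
  one : L 1 = 0
  inv : ∀ g, L g⁻¹ = L g
  mul_le : ∀ g h, L (g * h) ≤ L g + L h

/-- Convolution `(φ * ψ)(g) = ∑_h φ(h) ψ(h⁻¹ g)` (used only for finitely supported `φ`). -/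
noncomputable def conv {G : Type u} [Group G] (φ ψ : G → ℂ) (g : G) : ℂ :=
  ∑' h, φ h * ψ (h⁻¹ * g)

/-- Square of the `ℓ²` norm. -/
noncomputable def sqNorm {G : Type u} (f : G → ℂ) : ℝ := ∑' g, ‖f g‖ ^ 2

open Classical in
/-- The indicator inequality `∑_{g ∈ SX} n_g² ≤ P(r) |S| |X|`, for all `r > 0`, all finite
`S ⊆ B(r)` and all finite `X ⊆ G`, where `n_g = #{(s, x) ∈ S × X : s x = g}`. -/
def IndicatorWith {G : Type u} [Group G] (L : G → ℝ) (P : Polynomial ℝ) : Prop :=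
  ∀ r : ℝ, 0 < r → ∀ S X : Finset G, (∀ s ∈ S, L s ≤ r) →
    ∑ g ∈ (S ×ˢ X).image (fun p => p.1 * p.2),
      (#((S ×ˢ X).filter (fun p => p.1 * p.2 = g)) : ℝ) ^ 2 ≤ P.eval r * #S * #X

section aux

variable {G : Type u} [Group G]

open Classical in
theorem count_eq (S X : Finset G) (g : G) :
    (#((S ×ˢ X).filter (fun p => p.1 * p.2 = g)) : ℝ)
      = ∑ s ∈ S, if s⁻¹ * g ∈ X then (1 : ℝ) else 0 := by
  rw [← Finset.sum_filter, Finset.sum_const, nsmul_eq_mul, mul_one]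
  congr 1
  refine Finset.card_bij' (fun p _ => p.1) (fun s _ => (s, s⁻¹ * g)) ?_ ?_ ?_ ?_
  · rintro ⟨s, x⟩ hp
    rw [Finset.mem_filter, Finset.mem_product] at hp
    obtain ⟨⟨h1, h2⟩, h3⟩ := hp
    dsimp only at h1 h2 h3 ⊢
    rw [Finset.mem_filter]
    refine ⟨h1, ?_⟩
    rw [← h3]; simpa using h2
  · intro s hs
    rw [Finset.mem_filter] at hs
    rw [Finset.mem_filter, Finset.mem_product]
    exact ⟨hs, by simp⟩
  · rintro ⟨s, x⟩ hp
    rw [Finset.mem_filter, Finset.mem_product] at hp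
    obtain ⟨⟨h1, h2⟩, h3⟩ := hp
    dsimp only at h1 h2 h3 ⊢
    rw [← h3]; simp
  · intro s hs
    rfl

open Classical in
theorem restr_of_indicator {L : G → ℝ} {P : Polynomial ℝ} (hP : IndicatorWith L P) {r : ℝ}
    (hr : 0 < r) (Φ : Finset G) (hΦ : ∀ s ∈ Φ, L s ≤ r) :
    Pool.Agent.R723.RDConv.Restr Φ (P.eval r) := by
  intro S hS Y W
  have h1 := hP r hr S Y (fun s hs => hΦ s (hS hs))
  simp_rw [count_eq] at h1
  refine le_trans ?_ h1
  have h2 : ∀ g ∈ W, g ∉ (S ×ˢ Y).image (fun p => p.1 * p.2) →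
      (∑ s ∈ S, if s⁻¹ * g ∈ Y then (1 : ℝ) else 0) ^ 2 = 0 := by
    intro g _ hg
    have : ∑ s ∈ S, (if s⁻¹ * g ∈ Y then (1 : ℝ) else 0) = 0 := by
      refine Finset.sum_eq_zero fun s hs => ?_
      rw [if_neg]
      intro hmem
      apply hg
      rw [Finset.mem_image]
      exact ⟨(s, s⁻¹ * g), Finset.mem_product.2 ⟨hs, hmem⟩, by simp⟩
    rw [this]; norm_num
  have h3 : ∑ g ∈ W, (∑ s ∈ S, if s⁻¹ * g ∈ Y then (1 : ℝ) else 0) ^ 2
      = ∑ g ∈ W with g ∈ (S ×ˢ Y).image (fun p => p.1 * p.2),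
        (∑ s ∈ S, if s⁻¹ * g ∈ Y then (1 : ℝ) else 0) ^ 2 := by
    rw [Finset.sum_filter]
    refine Finset.sum_congr rfl fun g hg => ?_
    split_ifs with h
    · rfl
    · exact h2 g hg h
  rw [h3]
  refine Finset.sum_le_sum_of_subset_of_nonneg ?_ (fun _ _ _ => sq_nonneg _)
  intro g hg
  exact (Finset.mem_filter.1 hg).2

theorem one_le_of_indicator {L : G → ℝ} (hL : IsLength L) {P : Polynomial ℝ}
    (hP : IndicatorWith L P) {r : ℝ} (hr : 0 < r) : 1 ≤ P.eval r := by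
  classical
  have h1 := restr_of_indicator hP hr {1} (by
    intro s hs
    rw [Finset.mem_singleton] at hs
    rw [hs, hL.one]; exact hr.le) {1} (le_refl _) {1} {1}
  rw [Finset.sum_singleton, Finset.sum_singleton, if_pos (by simp), Finset.card_singleton,
    Nat.cast_one, one_pow, mul_one, mul_one] at h1
  exact h1

theorem conv_eq (φ ψ : G → ℂ) (hφ : φ.support.Finite) (g : G) :
    conv φ ψ g = ∑ h ∈ hφ.toFinset, φ h * ψ (h⁻¹ * g) := by
  rw [conv, tsum_eq_sum]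
  intro h hh
  rw [Set.Finite.mem_toFinset, Function.mem_support, not_not] at hh
  rw [hh, zero_mul]

omit [Group G] in
theorem sqNorm_eq (φ : G → ℂ) (hφ : φ.support.Finite) :
    sqNorm φ = ∑ h ∈ hφ.toFinset, ‖φ h‖ ^ 2 := by
  rw [sqNorm, tsum_eq_sum]
  intro h hh
  rw [Set.Finite.mem_toFinset, Function.mem_support, not_not] at hh
  rw [hh]; simp

theorem general {L : G → ℝ} (hL : IsLength L) {P : Polynomial ℝ}
    (hP : IndicatorWith L P) {r : ℝ} (hr : 0 < r) (φ : G → ℂ) (hφ : φ.support.Finite)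
    (hφr : ∀ g, φ g ≠ 0 → L g ≤ r) (ψ : G → ℂ) (hψ : Summable (fun g => ‖ψ g‖ ^ 2)) :
    Summable (fun g => ‖conv φ ψ g‖ ^ 2) ∧
      sqNorm (conv φ ψ) ≤
        200 * P.eval r * (1 + Real.log (φ.support.ncard)) ^ 2 * sqNorm φ * sqNorm ψ := by
  classical
  set Φ := hφ.toFinset with hΦ
  set N : ℕ := #Φ with hN
  have hncard : φ.support.ncard = N := by
    rw [hN, hΦ, Set.ncard_eq_toFinset_card _ hφ]
  rw [hncard]
  set m : ℕ := ⌈Real.log N / Real.log 2⌉₊ with hm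
  have hlog2 : (0.69 : ℝ) < Real.log 2 := by
    have := Real.log_two_gt_d9
    linarith
  have hlogN : 0 ≤ Real.log N := Real.log_natCast_nonneg N
  have hNm : (#Φ : ℝ) ≤ 2 ^ m := by
    rw [← hN]
    rcases Nat.eq_zero_or_pos N with h0 | h0
    · rw [h0]; simp
    · have h1 : Real.log N ≤ m * Real.log 2 := by
        have h2 : Real.log N / Real.log 2 ≤ m := Nat.le_ceil _
        rwa [div_le_iff₀ (by linarith)] at h2
      have h3 : (0 : ℝ) < N := by exact_mod_cast h0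
      rw [← Real.log_pow] at h1
      exact (Real.log_le_log_iff h3 (by positivity)).1 h1
  have hm1 : ((m : ℝ) + 1) ^ 2 ≤ 4 * (1 + Real.log N) ^ 2 := by
    have h1 : (m : ℝ) < Real.log N / Real.log 2 + 1 := Nat.ceil_lt_add_one (by positivity)
    have h2 : Real.log N / Real.log 2 ≤ 2 * Real.log N := by
      rw [div_le_iff₀ (by linarith)]
      nlinarith
    have h3 : (m : ℝ) + 1 ≤ 2 * (1 + Real.log N) := by linarith
    have h4 := pow_le_pow_left₀ (by positivity : (0 : ℝ) ≤ (m : ℝ) + 1) h3 2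
    calc _ ≤ _ := h4
      _ = _ := by ring
  have hA := one_le_of_indicator hL hP hr
  have hR := restr_of_indicator hP hr Φ (by
    intro s hs
    rw [hΦ, Set.Finite.mem_toFinset, Function.mem_support] at hs
    exact hφr s hs)
  set K : ℝ := 200 * P.eval r * (1 + Real.log N) ^ 2 * sqNorm φ * sqNorm ψ with hK
  have hwin : ∀ W : Finset G, ∑ g ∈ W, ‖conv φ ψ g‖ ^ 2 ≤ K := by
    intro W
    set X : Finset G := (Φ ×ˢ W).image (fun p => p.1⁻¹ * p.2) with hX
    set ψX : G → ℝ := fun x => if x ∈ X then ‖ψ x‖ else 0 with hψX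
    have h1 : ∀ g ∈ W, ‖conv φ ψ g‖ ≤ ∑ h ∈ Φ, ‖φ h‖ * ψX (h⁻¹ * g) := by
      intro g hg
      rw [conv_eq φ ψ hφ g]
      refine (norm_sum_le _ _).trans (le_of_eq ?_)
      refine Finset.sum_congr rfl fun h hh => ?_
      rw [norm_mul, hψX]
      dsimp only
      rw [if_pos]
      rw [hX, Finset.mem_image]
      exact ⟨(h, g), Finset.mem_product.2 ⟨hh, hg⟩, rfl⟩
    have h2 : ∑ g ∈ W, ‖conv φ ψ g‖ ^ 2 ≤ ∑ g ∈ W, (∑ h ∈ Φ, ‖φ h‖ * ψX (h⁻¹ * g)) ^ 2 :=
      Finset.sum_le_sum fun g hg => pow_le_pow_left₀ (norm_nonneg _) (h1 g hg) 2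
    have h3 := Pool.Agent.R723.RDConv.step2 hA hR hNm X W (fun h => ‖φ h‖) ψX
      (fun h => norm_nonneg _)
      (fun x => by
        rw [hψX]; dsimp only
        split_ifs
        · exact norm_nonneg _
        · exact le_rfl)
      (fun x hx => by
        by_contra hne
        apply hx
        rw [hψX]; dsimp only
        rw [if_neg hne])
    have h4 : ∑ x ∈ X, (ψX x) ^ 2 ≤ sqNorm ψ := by
      calc ∑ x ∈ X, (ψX x) ^ 2 = ∑ x ∈ X, ‖ψ x‖ ^ 2 := by
            refine Finset.sum_congr rfl fun x hx => ?_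
            rw [hψX]; dsimp only
            rw [if_pos hx]
        _ ≤ _ := hψ.sum_le_tsum X (fun _ _ => sq_nonneg _)
    have h5 : ∑ h ∈ Φ, ‖φ h‖ ^ 2 = sqNorm φ := (sqNorm_eq φ hφ).symm
    rw [h5] at h3
    have hs0 : 0 ≤ sqNorm φ := tsum_nonneg fun _ => sq_nonneg _
    have hs1 : 0 ≤ sqNorm ψ := tsum_nonneg fun _ => sq_nonneg _
    calc ∑ g ∈ W, ‖conv φ ψ g‖ ^ 2
        ≤ 50 * P.eval r * (m + 1) ^ 2 * sqNorm φ * ∑ x ∈ X, (ψX x) ^ 2 := h2.trans h3
      _ ≤ 50 * P.eval r * (m + 1) ^ 2 * sqNorm φ * sqNorm ψ :=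
          mul_le_mul_of_nonneg_left h4 (by positivity)
      _ = 50 * P.eval r * sqNorm φ * sqNorm ψ * (m + 1) ^ 2 := by ring
      _ ≤ 50 * P.eval r * sqNorm φ * sqNorm ψ * (4 * (1 + Real.log N) ^ 2) :=
          mul_le_mul_of_nonneg_left hm1 (by positivity)
      _ = K := by rw [hK]; ring
  have hsum : Summable (fun g => ‖conv φ ψ g‖ ^ 2) :=
    summable_of_sum_le (fun _ => sq_nonneg _) hwin
  exact ⟨hsum, hsum.tsum_le_of_sum_le hwin⟩

end aux

/-- For every group `G` with a length function `L` (the balls may be infinite) satisfying the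
indicator inequality with polynomial `P`,
`‖φ * ψ‖² ≤ 200 P(r) (1 + log |supp φ|)² ‖φ‖² ‖ψ‖²` for all `φ` finitely supported
in `B(r)` and all `ψ ∈ ℓ²(G)`. -/
theorem result (G : Type u) [Group G] (L : G → ℝ) (hL : IsLength L) (P : Polynomial ℝ)
    (hP : IndicatorWith L P) (r : ℝ) (hr : 0 < r) (φ : G → ℂ) (hφ : φ.support.Finite)
    (hφr : ∀ g, φ g ≠ 0 → L g ≤ r) (ψ : G → ℂ) (hψ : Summable (fun g => ‖ψ g‖ ^ 2)) :
    Summable (fun g => ‖conv φ ψ g‖ ^ 2) ∧
      sqNorm (conv φ ψ) ≤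
        200 * P.eval r * (1 + Real.log (φ.support.ncard)) ^ 2 * sqNorm φ * sqNorm ψ :=
  general hL hP hr φ hφ hφr ψ hψ

end Pool.Agent.Results.MP_37447d_al.LogLoss
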